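import Mathlib
import Pool.Agent.N601.EV.Main

set_option autoImplicit false

/-!
# The Ankeny-Chowla-Hasse family: values with an even number of prime factors, all of them large

For every `q` (uniformly in `q` up to a power of `X`) the numbers `(2 q n) ^ 2 + 1` take many values which
are products of boundedly many large primes, an even number of which lie in a given set. The identity
`(N ^ 2 + 1) ((2 N ^ 2) ^ 2 + 1) = (2 N ^ 3 + N) ^ 2 + 1` maps multiples of `2 q` to multiples of `2 q`; it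
is combined with a sieve (of Brun and Hooley, library `H505R3`) for the multiples of `8 q`, uniformly in `q`.
-/

open Finset

namespace Pool.Agent.Results.MP_4b1228_nt.EvenRoughValuesAllQ

/-- the number of the prime factors of `n` that belong to `S`, counted with multiplicity -/
noncomputable def count (S : Set ℕ) (n : ℕ) : ℕ := by
  classical
  exact n.primeFactorsList.countP (fun p => decide (p ∈ S))

theorem count_mul (S : Set ℕ) {a b : ℕ} (ha : a ≠ 0) (hb : b ≠ 0) :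
    count S (a * b) = count S a + count S b := by
  classical
  unfold count
  rw [(Nat.perm_primeFactorsList_mul ha hb).countP_eq, List.countP_append]

theorem pow_length (w : ℝ) (hw : 1 ≤ w) (l : List ℕ) (hl : ∀ p ∈ l, w ≤ (p : ℝ)) :
    w ^ l.length ≤ ((l.prod : ℕ) : ℝ) := by
  induction l with
  | nil => simp
  | cons p l ih =>
    rw [List.length_cons, List.prod_cons, pow_succ', Nat.cast_mul]
    exact mul_le_mul (hl p List.mem_cons_self) (ih fun q hq => hl q (List.mem_cons_of_mem _ hq))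
      (by positivity) (by positivity)

theorem length_le {X n : ℕ} (hX : 100 ≤ X) (hn : n ≤ X)
    (h : ∀ p : ℕ, p.Prime → p ∣ n ^ 2 + 1 → (X : ℝ) ^ ((1 : ℝ) / 16000) < p) :
    (n ^ 2 + 1).primeFactorsList.length ≤ 32000 := by
  have hX1 : (100 : ℝ) ≤ X := by exact_mod_cast hX
  have hX0 : (0 : ℝ) < X := by linarith
  by_contra hcon
  push Not at hcon
  obtain ⟨L, hL⟩ : ∃ L, L = (n ^ 2 + 1).primeFactorsList.length := ⟨_, rfl⟩
  obtain ⟨w, hw⟩ : ∃ w : ℝ, w = (X : ℝ) ^ ((1 : ℝ) / 16000) := ⟨_, rfl⟩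
  have hw1 : 1 ≤ w := by rw [hw]; exact Real.one_le_rpow (by linarith) (by norm_num)
  have h1 := pow_length w hw1 (n ^ 2 + 1).primeFactorsList (fun p hp => by
    rw [hw]
    exact (h p (Nat.prime_of_mem_primeFactorsList hp) (Nat.dvd_of_mem_primeFactorsList hp)).le)
  rw [Nat.prod_primeFactorsList (by positivity), ← hL] at h1
  rw [← hL] at hcon
  have h2 : w ^ 32001 ≤ w ^ L := pow_le_pow_right₀ hw1 hcon
  have h3 : w ^ 32001 = (X : ℝ) ^ 2 * w := by
    have e1 : w ^ 32000 = (X : ℝ) ^ 2 := by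
      rw [hw, ← Real.rpow_natCast, ← Real.rpow_mul hX0.le, ← Real.rpow_natCast]
      norm_num
    rw [pow_succ, e1]
  have h4 : 1 + 1 / 4000 ≤ w := by
    have hlog : 4 ≤ Real.log X := by
      rw [Real.le_log_iff_exp_le hX0]
      have h5 : Real.exp 4 = Real.exp 1 ^ 4 := by
        rw [← Real.exp_nat_mul]; norm_num
      have h6 := Real.exp_one_lt_d9
      have h7 : Real.exp 1 ^ 4 ≤ 3 ^ 4 := by
        apply pow_le_pow_left₀ (Real.exp_pos 1).le
        linarith
      rw [h5]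
      linarith
    rw [hw, Real.rpow_def_of_pos hX0]
    have h5 := Real.add_one_le_exp (Real.log X * (1 / 16000))
    linarith
  have h5 : ((n ^ 2 + 1 : ℕ) : ℝ) ≤ (X : ℝ) ^ 2 + 1 := by
    have h6 : n ^ 2 ≤ X ^ 2 := Nat.pow_le_pow_left hn 2
    have h7 : ((n ^ 2 : ℕ) : ℝ) ≤ ((X ^ 2 : ℕ) : ℝ) := by exact_mod_cast h6
    push_cast at h7 ⊢
    linarith
  have h6 : (X : ℝ) ^ 2 * w ≤ (X : ℝ) ^ 2 + 1 := by
    rw [← h3]; exact h2.trans (h1.trans h5)
  have h7 : (10000 : ℝ) ≤ (X : ℝ) ^ 2 := by nlinarith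
  have h8 : (X : ℝ) ^ 2 * (1 + 1 / 4000) ≤ (X : ℝ) ^ 2 * w :=
    mul_le_mul_of_nonneg_left h4 (by positivity)
  linarith

/-- **Even parity in the family `(2 q n) ^ 2 + 1`, uniformly in `q`.** There is `X₀` such that for all
`X ≥ X₀` and all positive integers `q ≤ X ^ (1/6)` (for instance all primes `q` up to this bound):

(1) for every set `S` of primes there are at least `X ^ (1/3) / (q (log X) ^ 139)` integers `n > 1` with
`2 q n ≤ X` such that `(2 q n) ^ 2 + 1` is a product of at most `32000` primes, all larger than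
`X ^ (1/16000)`, an even number of which are in `S`;

(2) the same holds for every property `E` of positive integers (in place of the parity) such that the
product of two positive integers without this property has it. -/
theorem result : ∃ X₀ : ℕ, ∀ X : ℕ, X₀ ≤ X → ∀ q : ℕ, 0 < q → (q : ℝ) ≤ (X : ℝ) ^ ((1 : ℝ) / 6) →
    (∀ S : Set ℕ, (X : ℝ) ^ ((1 : ℝ) / 3) / (q * Real.log X ^ 139) ≤
      (({n : ℕ | 2 * q * n ≤ X ∧ 1 < n ∧ ((2 * q * n) ^ 2 + 1).primeFactorsList.length ≤ 32000 ∧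
        (∀ p : ℕ, p.Prime → p ∣ (2 * q * n) ^ 2 + 1 → (X : ℝ) ^ ((1 : ℝ) / 16000) < p) ∧
        Even (count S ((2 * q * n) ^ 2 + 1))} : Set ℕ).ncard : ℝ)) ∧
    ∀ E : ℕ → Prop, (∀ a b : ℕ, a ≠ 0 → b ≠ 0 → ¬ E a → ¬ E b → E (a * b)) →
      (X : ℝ) ^ ((1 : ℝ) / 3) / (q * Real.log X ^ 139) ≤
        (({n : ℕ | 2 * q * n ≤ X ∧ 1 < n ∧ ((2 * q * n) ^ 2 + 1).primeFactorsList.length ≤ 32000 ∧
          (∀ p : ℕ, p.Prime → p ∣ (2 * q * n) ^ 2 + 1 → (X : ℝ) ^ ((1 : ℝ) / 16000) < p) ∧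
          E ((2 * q * n) ^ 2 + 1)} : Set ℕ).ncard : ℝ) := by
  obtain ⟨X₀, h⟩ := Pool.Agent.N601.EV.mainQ
  refine ⟨max X₀ 100, fun X hX q hq hqX => ?_⟩
  have hX0 : X₀ ≤ X := le_trans (le_max_left _ _) hX
  have hX2 : 100 ≤ X := le_trans (le_max_right _ _) hX
  have key : ∀ E : ℕ → Prop, (∀ a b : ℕ, a ≠ 0 → b ≠ 0 → ¬ E a → ¬ E b → E (a * b)) →
      (X : ℝ) ^ ((1 : ℝ) / 3) / (q * Real.log X ^ 139) ≤
        (({n : ℕ | 2 * q * n ≤ X ∧ 1 < n ∧ ((2 * q * n) ^ 2 + 1).primeFactorsList.length ≤ 32000 ∧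
          (∀ p : ℕ, p.Prime → p ∣ (2 * q * n) ^ 2 + 1 → (X : ℝ) ^ ((1 : ℝ) / 16000) < p) ∧
          E ((2 * q * n) ^ 2 + 1)} : Set ℕ).ncard : ℝ) := by
    intro E hE
    refine (h E hE X hX0 q hq hqX).trans (le_of_eq ?_)
    congr 2
    ext n
    constructor
    · rintro ⟨h1, h2, h4, h5⟩
      exact ⟨h1, h2, length_le hX2 h1 h4, h4, h5⟩
    · rintro ⟨h1, h2, -, h4, h5⟩
      exact ⟨h1, h2, h4, h5⟩
  refine ⟨fun S => key (fun n => Even (count S n)) ?_, key⟩
  intro a b ha hb h1 h2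
  rw [count_mul S ha hb]
  rw [Nat.not_even_iff_odd] at h1 h2
  exact h1.add_odd h2

end Pool.Agent.Results.MP_4b1228_nt.EvenRoughValuesAllQ
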