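import Pool.Agent.N449.SV.Final

/-!
# Sparse factors of the numbers in the families of Ankeny, Chowla, Hasse and Lang

The question is whether infinitely many numbers `(2 q n) ^ 2 + 1` (`q` prime, `n > 1`) or `((2 n + 1) q) ^ 2 + 4` (`q`
prime, `n ≥ 1`) are prime. We prove a theorem about the factorizations of the composite ones, for odd `q`, with
`n = a b ^ m`, respectively `2 n + 1 = a b ^ m`, for every base `b` and every `a` such that `q` does not divide `a b`:
the two factors cannot both be sums of few signed powers of `b`, or of few short blocks of digits in base `b`.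

More generally this holds for the sums of two squares `k ^ 2 + c ^ 2`, `k = A b ^ m` prime to `c`, if some odd prime
divides `k` exactly once. Some condition is needed: if `q n = r ^ 2` then
`(2 q n) ^ 2 + 1 = (2 r ^ 2 + 2 r + 1) (2 r ^ 2 - 2 r + 1)`, with sparse factors for sparse `r`; and if `k = r ^ 3` then
`k ^ 2 + 1 = (r ^ 2 + 1) (r ^ 4 - r ^ 2 + 1)`.

Proof (`Pool/Agent/N449/SV`). A number `q' ≤ (8 t) ^ (s - 1)` is chosen by Dirichlet's theorem such that the
`q' i / m`, `i ∈ S`, are close to integers; comparison of the digits of `d e` and `k ^ 2 + c ^ 2` in suitable blocks gives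
a factorization of the polynomial `k ^ 2 X ^ (2 q') + c ^ 2`. This polynomial is irreducible for all `q'`: let `l` be the
odd prime which divides `k` once. The roots have equal modulus, which shows that a factor has degree `q'` and a leading
coefficient divisible by `l` once; the constant coefficients are positive since there are no real roots; all other
coefficients of the two factors are divisible by `l`, and so the coefficient of `X ^ q'` in the product is congruent to
`2 k c` modulo `l ^ 2`, a contradiction.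
-/

set_option autoImplicit false

namespace Pool.Agent.Results.MP_4b1228_nt.SparseFactors

/-- **Sparse factors of the numbers in the families of Ankeny, Chowla, Hasse and Lang.** -/
theorem result :
    -- the numbers `(2 q n) ^ 2 + 1` of Ankeny, Chowla and Hasse, with `n = a b ^ m`
    (∀ q b m a n : ℕ, q.Prime → q ≠ 2 → 2 ≤ b → 0 < m → ¬ q ∣ a * b → n = a * b ^ m →
      ∀ d e : ℤ, d * e = (2 * (q : ℤ) * n) ^ 2 + 1 → 1 < |d| → 1 < |e| →
      ∀ (S T : Finset ℕ) (u v : ℕ → ℤ), d = ∑ i ∈ S, u i * (b : ℤ) ^ i →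
        e = ∑ j ∈ T, v j * (b : ℤ) ^ j →
        (b : ℤ) ^ m ≤ (b + (2 * (q : ℤ) * a) ^ 2 + 1 + (∑ i ∈ S, |u i|) * (∑ j ∈ T, |v j|)) ^
          (4 * T.card * (8 * T.card) ^ (S.card - 1))) ∧
    -- the numbers `((2 n + 1) q) ^ 2 + 4` of Lang, with `2 n + 1 = a b ^ m`
    (∀ q b m a n : ℕ, q.Prime → q ≠ 2 → 2 ≤ b → 0 < m → ¬ q ∣ a * b → 2 * n + 1 = a * b ^ m →
      ∀ d e : ℤ, d * e = ((2 * (n : ℤ) + 1) * q) ^ 2 + 4 → 1 < |d| → 1 < |e| →
      ∀ (S T : Finset ℕ) (u v : ℕ → ℤ), d = ∑ i ∈ S, u i * (b : ℤ) ^ i →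
        e = ∑ j ∈ T, v j * (b : ℤ) ^ j →
        (b : ℤ) ^ m ≤ (b + ((q : ℤ) * a) ^ 2 + 4 + (∑ i ∈ S, |u i|) * (∑ j ∈ T, |v j|)) ^
          (4 * T.card * (8 * T.card) ^ (S.card - 1))) ∧
    -- sums of two squares `k ^ 2 + c ^ 2`, `k = A b ^ m`
    (∀ b m A c l : ℕ, 2 ≤ b → 0 < m → l.Prime → l ≠ 2 → (A * b ^ m).factorization l = 1 →
      Nat.Coprime (A * b ^ m) c →
      ∀ d e : ℤ, d * e = ((A * b ^ m : ℕ) : ℤ) ^ 2 + (c : ℤ) ^ 2 → 1 < |d| → 1 < |e| →
      ∀ (S T : Finset ℕ) (u v : ℕ → ℤ), d = ∑ i ∈ S, u i * (b : ℤ) ^ i →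
        e = ∑ j ∈ T, v j * (b : ℤ) ^ j →
        (b : ℤ) ^ m ≤ (b + (A : ℤ) ^ 2 + (c : ℤ) ^ 2 + (∑ i ∈ S, |u i|) * (∑ j ∈ T, |v j|)) ^
          (4 * T.card * (8 * T.card) ^ (S.card - 1))) := by
  refine ⟨?_, ?_, ?_⟩
  · intro q b m a n hq hq2 hb hm hqab hn d e h hd he S T u v hS hT
    exact Pool.Agent.N449.SV.ach q b m a n hq hq2 hb hm hqab hn d e h hd he S T u v hS hT
  · intro q b m a n hq hq2 hb hm hqab hn d e h hd he S T u v hS hT
    exact Pool.Agent.N449.SV.lang q b m a n hq hq2 hb hm hqab hn d e h hd he S T u v hS hT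
  · intro b m A c l hb hm hl hl2 hlk hcop d e h hd he S T u v hS hT
    exact Pool.Agent.N449.SV.squares b m A c l hb hm hl hl2 hlk hcop d e h hd he S T u v hS hT

end Pool.Agent.Results.MP_4b1228_nt.SparseFactors
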