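import Pool.Agent.N728.QU.AllG

set_option autoImplicit false

/-!
# Primes `x² + c - y²` with `x` and `y` in an arithmetic progression

Let `Q ≥ 1` and `R` be integers. For every integer `c` prime to `Q` with few small prime factors, `|c| ≤ K H²`, and almost
all members `y = Q h + R`, `h ≤ H`, of the progression `R` modulo `Q`, the number of the members `x = Q m + R`, `m ≤ M`,
for which `x² + (c - y²)` is a prime is the number predicted by Hardy and Littlewood, for all `M ≤ K H` simultaneously.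
`Q = 2 q`, `R = 0`, `c = 1`, `h = 0` is the family `(2 q n)² + 1` of Ankeny, Chowla and Hasse; `Q = 2 q`, `R = q`,
`c = q² + 4`, `h = 0` is the family `((2 n + 1) q)² + 4` of Lang.

Proof (`Agent/N728/QU`): `x² - y² + c = u v + c` with `u = m - h`, `v = Q² u + b'`, `b' = 2 Q² h + 2 Q R` (and `c - u v`
with `u = h - m`, `v = - Q² u + b'` for `m < h`). Bilinear sums over `c ± u v` with an arbitrary bounded function of
`v ∓ Q² u` do not change if a divisor of `u v`, composed of primes of a suitable range, is moved from `u` to `v`; by the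
multiplication table phenomenon of Erdős few multiplicative windows contain such a divisor, and the off-diagonal terms are
bounded by two applications of the Cauchy-Schwarz inequality and the fundamental lemma of the sieve (functions with mean
zero on the cells (residue class and block)). For the functions constant on the cells the range is shifted, by moving
divisors again, to `u ≤ v / (log v)^C`, where the theorem of Bombieri and Vinogradov at the sharp level applies. All this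
is uniform in `c`.
-/

namespace Pool.Agent.Results.MP_4b1228_nt.SquaresInProgressions

open Finset

/-- `c` has few small prime factors beyond `s₀`: `∑_{p ∣ c, p > s} 1/p ≤ 1/√s` for all `s ≥ s₀`. -/
def Tame (s₀ : ℕ) (c : ℤ) : Prop :=
  c ≠ 0 ∧ ∀ s : ℕ, s₀ ≤ s → ∑ p ∈ c.natAbs.primeFactors.filter (fun p => s < p), 1 / (p : ℝ) ≤ 1 / √(s : ℝ)

/-- Every fixed `c ≠ 0`, for example `c = 1`, satisfies the condition with `s₀ = |c|`. -/
theorem tame_natAbs (c : ℤ) (h : c ≠ 0) : Tame c.natAbs c := by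
  refine ⟨h, fun s hs => ?_⟩
  have h1 : c.natAbs.primeFactors.filter (fun p => s < p) = ∅ := by
    rw [filter_eq_empty_iff]
    intro p hp hsp
    have := Nat.le_of_mem_primeFactors hp
    omega
  rw [h1, sum_empty]
  positivity

/-- The square of the `n`-th member `Q n + R` of the progression. -/
def sq (Q : ℕ) (R n : ℤ) : ℤ := (Q * n + R) ^ 2

/-- The number of the `1 ≤ m ≤ M` with `(Q m + R)² + k` a (positive) prime. -/
def primeCount (Q : ℕ) (R k : ℤ) (M : ℕ) : ℕ := ((Icc 1 M).filter (fun m : ℕ => (sq Q R m + k).toNat.Prime)).card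

/-- The sum of `1 / log ((Q m + R)² + k)` over the `1 ≤ m ≤ M` with `(Q m + R)² + k ≥ 2`. -/
noncomputable def logSum (Q : ℕ) (R k : ℤ) (M : ℕ) : ℝ :=
  ∑ m ∈ (Icc 1 M).filter (fun m : ℕ => 2 ≤ sq Q R m + k), 1 / Real.log ((sq Q R m + k : ℤ) : ℝ)

/-- The number of the solutions of `(Q m + R)² + k ≡ 0` modulo `p`. -/
def omega (Q : ℕ) (R k : ℤ) (p : ℕ) : ℕ := ((range p).filter (fun m : ℕ => (p : ℤ) ∣ sq Q R m + k)).card

/-- The product of Hardy and Littlewood for the polynomial `(Q X + R)² + k`, over the primes `p ≤ Z`. -/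
noncomputable def series (Q : ℕ) (R k : ℤ) (Z : ℕ) : ℝ :=
  ∏ p ∈ (Ioc 0 Z).filter Nat.Prime, (1 - (omega Q R k p : ℝ) / p) / (1 - 1 / (p : ℝ))

/-- The conclusion for one `k`: the product is at least `κ`, and the number of primes `(Q m + R)² + k`, `m ≤ M`, is the
expected one up to `δ H / log H`, for all `M ≤ K H`. -/
def Good (Q : ℕ) (R : ℤ) (κ δ : ℝ) (K H Z : ℕ) (k : ℤ) : Prop :=
  κ ≤ series Q R k Z ∧
    ∀ M : ℕ, M ≤ K * H → |(primeCount Q R k M : ℝ) - series Q R k Z * logSum Q R k M| ≤ δ * (H / Real.log H)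

open Classical in
/-- The number of the `1 ≤ h ≤ H` for which the conclusion fails for `k = c - (Q h + R)²`. -/
noncomputable def exceptions (Q : ℕ) (R : ℤ) (κ δ : ℝ) (c : ℤ) (K H Z : ℕ) : ℕ :=
  ((Icc 1 H).filter (fun h : ℕ => ¬ Good Q R κ δ K H Z (c - sq Q R h))).card

lemma Vg_eq (Q : ℕ) (R c : ℤ) (h m : ℕ) :
    Pool.Agent.N728.QU.Vg ((Q : ℤ) ^ 2) (2 * Q * R) 1 c h m = sq Q R m + (c - sq Q R h) := by
  unfold Pool.Agent.N728.QU.Vg sq
  ring

lemma adg (Q : ℕ) (R : ℤ) {c : ℤ} (hc : Int.gcd c Q = 1) : Pool.Agent.N728.QU.Adg ((Q : ℤ) ^ 2) (2 * Q * R) c := by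
  have key : ∀ p : ℕ, p.Prime → (p : ℤ) ∣ (Q : ℤ) ^ 2 → ¬ (p : ℤ) ∣ c := by
    intro p hp h1 h2
    have h3 : (p : ℤ) ∣ (Q : ℤ) := (Nat.prime_iff_prime_int.1 hp).dvd_of_dvd_pow h1
    have h4 : (p : ℤ) ∣ (Int.gcd c Q : ℤ) := Int.dvd_coe_gcd h2 h3
    rw [hc] at h4
    have h5 : p ∣ 1 := by exact_mod_cast h4
    exact hp.one_lt.ne' (Nat.dvd_one.1 h5)
  refine ⟨fun p hp h1 _ => key p hp h1, fun h1 => ?_⟩
  have h2 : ((2 : ℕ) : ℤ) ∣ (Q : ℤ) ^ 2 := by
    have h3 : (2 : ℤ) ∣ 2 * Q * R := ⟨Q * R, by ring⟩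
    exact (dvd_add_left h3).1 h1
  have := key 2 Nat.prime_two h2
  exact_mod_cast this

/-- **Theorem.** -/
theorem result (Q : ℕ) (R : ℤ) (hQ : 1 ≤ Q) (s₀ : ℕ) :
    ∀ ε : ℝ, 0 < ε → ∃ κ : ℝ, 0 < κ ∧ ∀ (δ : ℝ) (K : ℕ), 0 < δ → ∃ Z₀ : ℕ, ∀ A : ℕ, ∃ H₀ : ℕ, ∀ H : ℕ, H₀ ≤ H →
      ∀ (c : ℤ) (Z : ℕ), Tame s₀ c → Int.gcd c Q = 1 → c.natAbs ≤ K * H ^ 2 → Z₀ ≤ Z → (Z : ℝ) ≤ Real.log H ^ A →
      (exceptions Q R κ δ c K H Z : ℝ) ≤ ε * H := by
  classical
  intro ε hε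
  have hQ2 : (1 : ℤ) ≤ (Q : ℤ) ^ 2 := by
    have : (1 : ℤ) ≤ Q := by exact_mod_cast hQ
    nlinarith
  obtain ⟨κ, hκ, h1⟩ := Pool.Agent.N728.QU.finalGU ((Q : ℤ) ^ 2) (2 * Q * R) hQ2 s₀ ε hε
  refine ⟨κ, hκ, fun δ K hδ => ?_⟩
  obtain ⟨Z₀, h2⟩ := h1 δ K hδ
  refine ⟨Z₀, fun A => ?_⟩
  obtain ⟨H₀, h3⟩ := h2 A
  refine ⟨H₀, fun H hH c Z hc hcQ hcK hZ1 hZ2 => ?_⟩
  have h4 := h3 H hH Z c 1 hc (adg Q R hcQ) (Or.inl rfl) hcK hZ1 hZ2
  refine le_trans (le_of_eq ?_) h4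
  unfold exceptions
  congr 2
  apply filter_congr
  intro h hh
  unfold Good primeCount logSum series omega Pool.Agent.N728.QU.cntg Pool.Agent.N728.QU.Sqg
  simp only [Vg_eq]

end Pool.Agent.Results.MP_4b1228_nt.SquaresInProgressions
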