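import Pool.Agent.N792.ACH.Fin

/-!
# The Ankeny–Chowla–Hasse and Lang families with `l²` and `(2 l)²` in place of `1` and `4`, for almost all `l`

For almost all `l ≤ L` the families of primes `(2 q n)² + l²` (`q` prime, `n > 1`; `l` odd) and `((2 n + 1) q)² + (2 l)²`
(`q` prime, `n ≥ 1`) satisfy the asymptotic formula of Hardy and Littlewood, up to a factor between `1 - ε` and `1 + ε`,
uniformly for all `u` between `L ^ (1 + ε)` and `L ^ (3 / 2 - ε)` (`u` the bound for `2 q n` and `(2 n + 1) q`).

Proof: project GN (`Pool.Agent.N782.GN.c_main`): for `M ^ (2 / 3 + ε) ≤ L ≤ M ^ (1 - ε)`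
`∑_{l ≤ L} |∑_{m ≤ M} Λ(l² + m²) - M 𝔖(l)| ≪ L M (log M) ^ (-A)`, the theorem of Fouvry and Iwaniec (there `L = M`) for short
ranges of `l`: Vaughan's identity in `ℤ[i]`; linear sums of level `L M ^ (1 - ε)` by the large sieve for the roots of
`ν² ≡ -1`; bilinear sums by the dispersion method, where the pairs `(w₁, w₂)` have a small determinant, so that the Moebius
function of `ℤ[i]` in almost all sectors of width `R ^ (-1 + ε)` is needed: Vinogradov's method for the sums of
`exp (i (k arg z - 2 τ log |z|))` over lines, and Siegel's theorem for the characters. The primes `m² + l²` that do not belong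
to the families have `m ≤ 2`, `m = 2 q` or `m = q` with `q` a prime: for almost all `l` there are at most `ε u / log u` of them,
by the theorem of Brun and Titchmarsh in the classes modulo `P` of the `q` with `((c q)² + l², P) = 1`, `P` a product of primes
`1` modulo `4`, and the average of the number of these classes over `l`. The product over the primes dividing `l` is bounded
for almost all `l`.

Authors of the parts: helper782, helpers 704, 864, 27, 531, 866, 855, 8, 7, 391, 277, 458, 157, 106, 56, 946, 487, 402, 755,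
546, 407, 494, 868, 954, 521 (project GN), and 792.
-/

set_option autoImplicit false

namespace Pool.Agent.Results.MP_4b1228_nt.ThinFamilies

open Finset Filter Topology

/-- The product which defines the constant, over the odd primes `w ≤ z` (`jacobiSym (-l²) w` is the Legendre symbol). -/
noncomputable def product (l z : ℕ) : ℝ :=
  ∏ w ∈ (Icc 3 z).filter Nat.Prime, (1 - (jacobiSym (-(l : ℤ) ^ 2) w : ℝ) / ((w : ℝ) - 1))

/-- The product over the odd primes, in increasing order, converges to `H`. -/
def IsConstant (l : ℕ) (H : ℝ) : Prop := Tendsto (product l) atTop (𝓝 H)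

open Classical in
/-- The number of the integers `m ≤ u` of the form `m = 2 q n`, `q` prime, `n > 1`, for which `m² + l²` is a prime. For `l = 1`:
the number of the primes of the set `𝒜` of the problem with `m ≤ u`. -/
noncomputable def countA (l : ℕ) (u : ℝ) : ℕ :=
  ((Icc 1 ⌊u⌋₊).filter (fun m : ℕ => (∃ q n : ℕ, q.Prime ∧ 1 < n ∧ m = 2 * q * n) ∧ (m ^ 2 + l ^ 2).Prime)).card

open Classical in
/-- The number of the integers `m ≤ u` of the form `m = (2 n + 1) q`, `q` prime, `n ≥ 1`, for which `m² + (2 l)²` is a prime.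
For `l = 1`: the number of the primes of the set `ℬ` of the problem with `m ≤ u`. -/
noncomputable def countB (l : ℕ) (u : ℝ) : ℕ :=
  ((Icc 1 ⌊u⌋₊).filter
    (fun m : ℕ => (∃ q n : ℕ, q.Prime ∧ 1 ≤ n ∧ m = (2 * n + 1) * q) ∧ (m ^ 2 + (2 * l) ^ 2).Prime)).card

/-- The expected number `(1 / 2) H ∫_2^u dt / log t`. -/
noncomputable def expected (H u : ℝ) : ℝ := 1 / 2 * H * ∫ t in (2 : ℝ)..u, 1 / Real.log t

/-- The conclusion for `l`: the product converges to a positive number `H`, and for all real `u` from `L ^ (1 + ε)` to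
`L ^ (3 / 2 - ε)` the count for the first family (if `l` is odd) and the count for the second family differ from
`(1 / 2) H ∫_2^u dt / log t` by at most `ε` times this number. -/
def Good (ε L : ℝ) (l : ℕ) : Prop :=
  ∃ H : ℝ, 0 < H ∧ IsConstant l H ∧ ∀ u : ℝ, L ^ (1 + ε) ≤ u → u ≤ L ^ (3 / 2 - ε) →
    (Odd l → |(countA l u : ℝ) - expected H u| ≤ ε * expected H u) ∧
    |(countB l u : ℝ) - expected H u| ≤ ε * expected H u

open Classical in
/-- The number of the integers `1 ≤ l ≤ L` for which the conclusion fails. -/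
noncomputable def exceptions (ε L : ℝ) : ℕ := ((Icc 1 ⌊L⌋₊).filter (fun l => ¬ Good ε L l)).card

theorem product_eq (l z : ℕ) : product l z = Pool.Agent.N782.GN.pp l z := by
  unfold product Pool.Agent.N782.GN.pp
  rw [← filter_filter]
  conv_rhs => rw [prod_filter]
  refine prod_congr rfl fun w hw => ?_
  rw [mem_filter, mem_Icc] at hw
  obtain ⟨⟨hw3, -⟩, hwp⟩ := hw
  have hodd : Odd w := hwp.odd_of_ne_two (by omega)
  have h1 : jacobiSym (-(l : ℤ) ^ 2) w = jacobiSym (-1) w * jacobiSym l w ^ 2 := by
    rw [show -(l : ℤ) ^ 2 = (-1) * ((l : ℤ) ^ 2) by ring, jacobiSym.mul_left, jacobiSym.pow_left]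
  rw [h1, jacobiSym.at_neg_one hodd]
  by_cases hd : (w : ℤ) ∣ (l : ℤ)
  · rw [if_neg (not_not.2 hd)]
    have h2 : jacobiSym l w = 0 := by
      rw [jacobiSym.eq_zero_iff]
      refine ⟨hwp.ne_zero, ?_⟩
      rw [Int.gcd_natCast_natCast, Nat.gcd_eq_right (Int.natCast_dvd_natCast.1 hd)]
      exact hwp.one_lt.ne'
    rw [h2]
    simp
  · rw [if_pos hd]
    have h2 : jacobiSym l w ^ 2 = 1 := by
      apply jacobiSym.sq_one
      rw [Int.gcd_natCast_natCast]
      rw [Nat.gcd_comm]
      exact (Nat.Prime.coprime_iff_not_dvd hwp).2 (fun h => hd (Int.natCast_dvd_natCast.2 h))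
    rw [h2, mul_one]

/-- For all `0 < ε < 1 / 4` and all large `L`, all but at most `ε L` of the integers `1 ≤ l ≤ L` satisfy the formulas of Hardy
and Littlewood for the two families, up to the factor `1 ± ε`, for all `u` from `L ^ (1 + ε)` to `L ^ (3 / 2 - ε)`. -/
theorem result (ε : ℝ) (hε : 0 < ε) (hε4 : ε < 1 / 4) :
    ∃ L₀ : ℝ, ∀ L : ℝ, L₀ ≤ L → (exceptions ε L : ℝ) ≤ ε * L := by
  classical
  obtain ⟨L₀, h⟩ := Pool.Agent.N792.ACH.main hε hε4
  refine ⟨L₀, fun L hL => le_trans ?_ (h L hL)⟩
  unfold exceptions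
  rw [Nat.cast_le]
  apply card_le_card
  intro l hl
  rw [mem_filter] at hl ⊢
  refine ⟨hl.1, fun hg => hl.2 ?_⟩
  rw [mem_Icc] at hl
  obtain ⟨h1, h2⟩ := Pool.Agent.N782.GN.c_ssl (l : ℤ) (by omega)
  refine ⟨Pool.Agent.N782.GN.SS l, h2, ?_, fun u hu1 hu2 => ?_⟩
  · refine h1.congr fun z => ?_
    exact (product_eq l z).symm
  · exact hg u hu1 hu2

end Pool.Agent.Results.MP_4b1228_nt.ThinFamilies
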